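import Mathlib
import Pool.Agent.Lib.MP_baf44c_co.Q1.Main

/-! Stanley's domino-tiling denominators: if `Q_k` has a repeated root then `14 ∣ k + 1` or
`30 ∣ k + 1`. -/

set_option autoImplicit false

namespace Pool.Agent.Results.MP_baf44c_co.FourteenThirty

open Polynomial

/-- `c_j = cos (jπ/(k+1)) + √(1 + cos² (jπ/(k+1)))`. -/
noncomputable def cj (k j : ℕ) : ℝ :=
  Real.cos (j * Real.pi / (k + 1)) + Real.sqrt (1 + Real.cos (j * Real.pi / (k + 1)) ^ 2)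

/-- `c̄_j = cos (jπ/(k+1)) - √(1 + cos² (jπ/(k+1)))`. -/
noncomputable def cbar (k j : ℕ) : ℝ :=
  Real.cos (j * Real.pi / (k + 1)) - Real.sqrt (1 + Real.cos (j * Real.pi / (k + 1)) ^ 2)

/-- `a_S = ∏_{j ∈ S} c_j ∏_{j ∉ S} c̄_j`, for `S ⊆ {1, .., ⌊k/2⌋}`. -/
noncomputable def aS (k : ℕ) (S : Finset ℕ) : ℝ :=
  (∏ j ∈ S, cj k j) * ∏ j ∈ Finset.Icc 1 (k / 2) \ S, cbar k j

/-- Stanley's denominator: `∏_S (1 - a_S x)` for even `k`, `∏_S (1 - a_S² x²)` for odd `k`. -/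
noncomputable def Q (k : ℕ) : ℝ[X] :=
  if Even k then ∏ S ∈ (Finset.Icc 1 (k / 2)).powerset, (1 - C (aS k S) * X)
  else ∏ S ∈ (Finset.Icc 1 (k / 2)).powerset, (1 - C (aS k S ^ 2) * X ^ 2)

/-- Some complex root has multiplicity at least two. -/
def HasRepeatedRoot (P : ℝ[X]) : Prop :=
  ∃ z : ℂ, 2 ≤ (P.map (algebraMap ℝ ℂ)).rootMultiplicity z

/-- For every `k ≥ 1`, if `Q_k` has a repeated root, then `14 ∣ k + 1` or `30 ∣ k + 1`. -/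
theorem result : ∀ k : ℕ, 1 ≤ k → HasRepeatedRoot (Q k) → 14 ∣ k + 1 ∨ 30 ∣ k + 1 :=
  fun _ hk h => Pool.Agent.Lib.MP_baf44c_co.Q1.main hk h

end Pool.Agent.Results.MP_baf44c_co.FourteenThirty
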